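import Pool.Agent.H33R2.ThmC2
import Pool.Agent.H33R2.AmpleK
import Pool.Agent.H391R2.T4.Abl
import Pool.Agent.Q24.ML.Base

/-!
# Every finite group is a Galois group over all number fields containing a suitable one
-/

set_option autoImplicit false

open Polynomial

namespace Pool.Agent.Q248.ML

open H33 H33.V1b

/-- a regular realisation over an algebraically closed field -/
theorem exists_over_algClosed (k : Type) [Field k] [CharZero k] [IsAlgClosed k] (G : Type)
    [Group G] [Finite G] :
    ∃ (F : Type) (_ : Field F) (_ : Algebra (RatFunc k) F) (_ : FiniteDimensional (RatFunc k) F)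
      (_ : IsGalois (RatFunc k) F), Nonempty ((F ≃ₐ[RatFunc k] F) ≃* G) := by
  classical
  have hne : NeZero (Monoid.exponent G) := ⟨Monoid.exponent_ne_zero_of_finite⟩
  have hch : NeZero ((Monoid.exponent G : ℕ) : k) := ⟨by
    exact_mod_cast hne.out⟩
  obtain ⟨ζ, hζ⟩ := HasEnoughRootsOfUnity.exists_primitiveRoot k (Monoid.exponent G)
  have hsub : ∀ σ : k ≃ₐ[k] k, σ = 1 := fun σ => AlgEquiv.ext fun x => σ.commutes x
  let α : G →* (k ≃ₐ[k] k) := 1
  have hα : Function.Surjective α := fun σ => ⟨1, by rw [map_one, hsub σ]⟩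
  have hker : α.ker = ⊤ := by
    rw [eq_top_iff]
    intro g _
    rw [MonoidHom.mem_ker]; rfl
  have hcyc : IsCyclic (G ⧸ ((⊥ : Subgroup G) ⊔ α.ker)) := by
    have : Subsingleton (G ⧸ ((⊥ : Subgroup G) ⊔ α.ker)) := by
      constructor
      intro a b
      induction a using QuotientGroup.induction_on with
      | H a =>
        induction b using QuotientGroup.induction_on with
        | H b =>
          rw [QuotientGroup.eq, hker]
          simp
    infer_instance
  obtain ⟨F, i1, i2, i3, i4, i5, i6, i7, i8, γ, -⟩ :=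
    thmC k k k G (ample_of_isAlgClosed k) hζ α hα ⊥ (by simp) hcyc
  exact ⟨F, i1, i2, i7, i8, ⟨γ⟩⟩

/-- an integral primitive element -/
theorem exists_prim {k : Type} [Field k] [CharZero k] {F : Type} [Field F] [Algebra (RatFunc k) F]
    [FiniteDimensional (RatFunc k) F] :
    ∃ (y : F) (f : k[X][X]), IntermediateField.adjoin (RatFunc k) {y} = ⊤ ∧ f.Monic ∧
      Irreducible f ∧ f.map (algebraMap k[X] (RatFunc k)) = minpoly (RatFunc k) y := by
  classical
  let iP : Algebra k[X] F :=
    ((algebraMap (RatFunc k) F).comp (algebraMap k[X] (RatFunc k))).toAlgebra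
  have t3 : IsScalarTower k[X] (RatFunc k) F := IsScalarTower.of_algebraMap_eq (fun _ => rfl)
  have halg : Algebra.IsAlgebraic k[X] F :=
    IsFractionRing.comap_isAlgebraic_iff.2 (Algebra.IsAlgebraic.of_finite (RatFunc k) F)
  obtain ⟨y0, hy0⟩ := Field.exists_primitive_element (RatFunc k) F
  obtain ⟨d, hd, hint⟩ := (halg.isAlgebraic y0).exists_integral_multiple
  set y : F := d • y0 with hy
  have hdF : (algebraMap k[X] (RatFunc k) d) ≠ 0 := RatFunc.algebraMap_ne_zero hd
  have hyy : y0 = (algebraMap k[X] (RatFunc k) d)⁻¹ • y := by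
    rw [hy, ← algebraMap_smul (RatFunc k) d y0, smul_smul, inv_mul_cancel₀ hdF, one_smul]
  have hadj : IntermediateField.adjoin (RatFunc k) {y} = ⊤ := by
    rw [eq_top_iff, ← hy0, IntermediateField.adjoin_simple_le_iff, hyy]
    exact IntermediateField.smul_mem _ (IntermediateField.mem_adjoin_simple_self _ _)
  exact ⟨y, minpoly k[X] y, hadj, minpoly.monic hint, minpoly.irreducible hint,
    (minpoly.isIntegrallyClosed_eq_field_fractions' (RatFunc k) hint).symm⟩

/-- lifting polynomials with coefficients in a subfield -/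
theorem lift_one {k₀ k : Type} [Field k₀] [Field k] (i : k₀ →+* k) (p : k[X])
    (h : ∀ c ∈ coefs p, c ∈ i.range) : ∃ p₀ : k₀[X], p₀.map i = p := by
  classical
  have h1 : p ∈ Polynomial.lifts i := by
    rw [Polynomial.lifts_iff_coeff_lifts]
    intro n
    by_cases hn : n ∈ Finset.range (p.natDegree + 1)
    · exact h _ (by unfold coefs; exact Finset.mem_image_of_mem _ hn)
    · have : p.coeff n = 0 := by
        apply Polynomial.coeff_eq_zero_of_natDegree_lt
        rw [Finset.mem_range] at hn
        omega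
      rw [this]
      exact ⟨0, map_zero _⟩
  exact (Polynomial.mem_lifts _).1 h1

/-- the coefficients of the coefficients -/
noncomputable def coefs2 {k : Type} [Field k] (f : k[X][X]) : Finset k :=
  by classical exact (Finset.range (f.natDegree + 1)).biUnion fun n => coefs (f.coeff n)

theorem lift_two {k₀ k : Type} [Field k₀] [Field k] (i : k₀ →+* k) (f : k[X][X])
    (h : ∀ c ∈ coefs2 f, c ∈ i.range) : ∃ f₀ : k₀[X][X], f₀.map (mapRingHom i) = f := by
  classical
  have h1 : f ∈ Polynomial.lifts (mapRingHom i) := by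
    rw [Polynomial.lifts_iff_coeff_lifts]
    intro n
    by_cases hn : n ∈ Finset.range (f.natDegree + 1)
    · obtain ⟨p₀, hp₀⟩ := lift_one i (f.coeff n) (fun c hc => h c (by
        unfold coefs2
        exact Finset.mem_biUnion.2 ⟨n, hn, hc⟩))
      exact ⟨p₀, hp₀⟩
    · have : f.coeff n = 0 := by
        apply Polynomial.coeff_eq_zero_of_natDegree_lt
        rw [Finset.mem_range] at hn
        omega
      rw [this]
      exact ⟨0, map_zero _⟩
  exact (Polynomial.mem_lifts _).1 h1

/-- The descent and the specialisation. `k₀ ⊂ k` contains finitely many elements; for every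
extension `K` of `k₀` which embeds in `k` and is Hilbertian, `G` is a Galois group over `K`. -/
theorem exists_finset (k : Type) [Field k] [CharZero k] [IsAlgClosed k] (G : Type)
    [Group G] [Finite G] :
    ∃ T : Finset k, ∀ (k₀ : Type) [Field k₀] (i : k₀ →+* k), (∀ c ∈ T, c ∈ i.range) →
      ∀ (K : Type) [Field K] [CharZero K] (j₀ : k₀ →+* K) (j : K →+* k), j.comp j₀ = i →
        Pool.Agent.H391R2.T4.HilbField K → Pool.Agent.Q24.ML.Real K G := by
  classical
  obtain ⟨F, i1, i2, i3, i4, ⟨γ⟩⟩ := exists_over_algClosed k G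
  obtain ⟨y, f, hadj, hfm, hfi, hfmap⟩ := exists_prim (k := k) (F := F)
  obtain ⟨S, hS⟩ := spec_lemma y hadj ∅
  refine ⟨coefs2 f ∪ S.biUnion fun s => coefs s.num ∪ coefs s.denom, ?_⟩
  intro k₀ _ i hT K _ _ j₀ j hj hHilb
  obtain ⟨f₀, hf₀⟩ := lift_two i f fun c hc => hT c (Finset.mem_union_left _ hc)
  have hnum : ∀ s ∈ S, ∃ p : k₀[X], p.map i = s.num := fun s hs => lift_one i _ fun c hc =>
    hT c (Finset.mem_union_right _ (Finset.mem_biUnion.2 ⟨s, hs, Finset.mem_union_left _ hc⟩))
  have hden : ∀ s ∈ S, ∃ p : k₀[X], p.map i = s.denom := fun s hs => lift_one i _ fun c hc =>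
    hT c (Finset.mem_union_right _ (Finset.mem_biUnion.2 ⟨s, hs, Finset.mem_union_right _ hc⟩))
  have hii : Function.Injective i := i.injective
  have hf₀m : f₀.Monic := Polynomial.monic_of_injective
    (Polynomial.map_injective i hii) (by rw [show (f₀.map (mapRingHom i)) = f from hf₀]; exact hfm)
  set fK : K[X][X] := f₀.map (mapRingHom j₀) with hfK
  have hfKm : fK.Monic := hf₀m.map _
  have hfKj : fK.map (mapRingHom j) = f := by
    rw [hfK, Polynomial.map_map, Polynomial.mapRingHom_comp, hj, hf₀]
  have hfKi : Irreducible fK :=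
    Monic.irreducible_of_irreducible_map (mapRingHom j) fK hfKm (by rw [hfKj]; exact hfi)
  have hsep : (fK.map (algebraMap K[X] (FractionRing K[X]))).Separable := by
    have h1 : Irreducible (fK.map (algebraMap K[X] (FractionRing K[X]))) :=
      (hfKm.irreducible_iff_irreducible_map_fraction_map).1 hfKi
    have : CharZero (FractionRing K[X]) :=
      charZero_of_injective_algebraMap (IsFractionRing.injective K[X] (FractionRing K[X]))
    exact h1.separable
  choose q hq using hden
  choose p hp using hnum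
  let g : K[X] := ∏ s ∈ S.attach, ((q s.1 s.2).map j₀)
  have hqm : ∀ s (hs : s ∈ S), (q s hs).Monic := fun s hs =>
    Polynomial.monic_of_injective hii (by rw [hq s hs]; exact RatFunc.monic_denom s)
  have hg : g ≠ 0 := Finset.prod_ne_zero_iff.2 fun s _ => ((hqm s.1 s.2).map j₀).ne_zero
  obtain ⟨a, hga, hirr⟩ := hHilb fK hfKm hfKi hsep g hg
  let ι : k₀[X] →+* RatFunc k := (algebraMap k[X] (RatFunc k)).comp (mapRingHom i)
  let θ : k₀[X] →+* K := (evalRingHom a).comp (mapRingHom j₀)
  have hι : Function.Injective ι :=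
    (RatFunc.algebraMap_injective k).comp (Polynomial.map_injective _ hii)
  have hSA : (S : Set (RatFunc k)) ⊆ (locA ι θ : Set (RatFunc k)) := by
    intro s hs
    refine ⟨p s hs, q s hs, ?_, ?_⟩
    · intro h0
      apply hga
      change Polynomial.eval a (∏ s ∈ S.attach, ((q s.1 s.2).map j₀)) = 0
      rw [Polynomial.eval_prod]
      exact Finset.prod_eq_zero (Finset.mem_attach S ⟨s, hs⟩) h0
    · have h2 : algebraMap k[X] (RatFunc k) s.denom ≠ 0 :=
        RatFunc.algebraMap_ne_zero (RatFunc.denom_ne_zero s)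
      show s * algebraMap k[X] (RatFunc k) ((q s hs).map i) =
        algebraMap k[X] (RatFunc k) ((p s hs).map i)
      rw [hq, hp]
      exact (div_eq_iff h2).1 (RatFunc.num_div_denom s) |>.symm
  obtain ⟨F', iF', iKF', fd', gal', ψ, -⟩ :=
    hS (locA ι θ) hSA K (locφ hι) (f₀.map (toLoc ι θ))
      (by
        rw [Polynomial.map_map, ← hfmap, ← hf₀, Polynomial.map_map]; rfl)
      (by
        rw [Polynomial.map_map]
        have : (locφ hι : locA ι θ →+* K).comp (toLoc ι θ) = θ :=
          RingHom.ext fun r => locφ_toLoc hι r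
        rw [this]
        have h3 : f₀.map θ = fK.map (evalRingHom a) := by
          rw [hfK, Polynomial.map_map]
        rw [h3]; exact hirr)
  exact ⟨F', iF', iKF', fd', gal', ⟨γ.symm.trans ψ⟩⟩

/-- Every finite group is a Galois group over all number fields containing a suitable one. -/
theorem exists_base (G : Type) [Group G] [Finite G] :
    ∃ (K₀ : Type) (_ : Field K₀) (_ : NumberField K₀), ∀ (K : Type) [Field K] [NumberField K]
      [Algebra K₀ K], Pool.Agent.Q24.ML.Real K G := by
  obtain ⟨T, hT⟩ := exists_finset (AlgebraicClosure ℚ) G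
  let K₀ : IntermediateField ℚ (AlgebraicClosure ℚ) :=
    IntermediateField.adjoin ℚ (T : Set (AlgebraicClosure ℚ))
  have hfd : FiniteDimensional ℚ K₀ := by
    have : Finite (T : Set (AlgebraicClosure ℚ)) := T.finite_toSet
    exact IntermediateField.finiteDimensional_adjoin
      (fun x _ => (AlgebraicClosure.isAlgebraic ℚ).isAlgebraic x |>.isIntegral)
  have hnf : NumberField K₀ :=
    { to_charZero := by infer_instance
      to_finiteDimensional := by convert hfd }
  refine ⟨K₀, inferInstance, hnf, ?_⟩
  intro K _ _ _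
  have t : IsScalarTower ℚ K₀ K := inferInstance
  have hfd2 : FiniteDimensional K₀ K := Module.Finite.of_restrictScalars_finite ℚ K₀ K
  have halg : Algebra.IsAlgebraic K₀ K := Algebra.IsAlgebraic.of_finite K₀ K
  let j : K →ₐ[K₀] (AlgebraicClosure ℚ) := IsAlgClosed.lift
  refine hT K₀ (algebraMap K₀ (AlgebraicClosure ℚ)) ?_ K (algebraMap K₀ K) (j : K →+* _) ?_
    (Pool.Agent.H391R2.T4.hilb_numberField K)
  · intro c hc
    exact ⟨⟨c, IntermediateField.subset_adjoin _ _ hc⟩, rfl⟩
  · ext x
    simp

end Pool.Agent.Q248.ML
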